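import Pool.Agent.T6.H42F.Taylor
import Pool.Agent.T6.H42.Defs

/-!
# Approximation of Schwartz functions by piecewise polynomials
-/

set_option autoImplicit false
set_option linter.unusedSectionVars false

noncomputable section

namespace Pool.Agent.T6.H42F

open MeasureTheory Function Filter Pool.Agent.T6.H42 LineDeriv
open scoped ENNReal SchwartzMap

variable {ι : Type} [DecidableEq ι] [Fintype ι]

/-- `L²(EuclideanSpace)` seen in `L²(ℝ^ι)`. -/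
def toPi {ι : Type} [Fintype ι] : Lp ℂ 2 (volume : Measure (EuclideanSpace ℝ ι)) →ₗᵢ[ℂ] HS ι :=
  Lp.compMeasurePreservingₗᵢ ℂ (WithLp.toLp 2) (PiLp.volume_preserving_toLp ι)

/-- `L²` of the Euclidean space. -/
abbrev LE (ι : Type) [Fintype ι] : Type := Lp ℂ 2 (volume : Measure (EuclideanSpace ℝ ι))

/-- A Schwartz function as an element of `L²`. -/
def sL {ι : Type} [Fintype ι] (φ : 𝓢(EuclideanSpace ℝ ι, ℂ)) : LE ι := φ.toLp 2 volume

theorem sL_coe (φ : 𝓢(EuclideanSpace ℝ ι, ℂ)) : ∀ᵐ y : EuclideanSpace ℝ ι, sL φ y = φ y :=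
  φ.coeFn_toLp 2 volume

/-- Iterated derivative in the coordinate `c`. -/
def Dit (c : ι) (φ : 𝓢(EuclideanSpace ℝ ι, ℂ)) : ℕ → 𝓢(EuclideanSpace ℝ ι, ℂ)
  | 0 => φ
  | j + 1 => ∂_{EuclideanSpace.single c (1 : ℝ)} (Dit c φ j)

/-- The iterated derivative as a function on `ℝ^ι`. -/
def Phi (c : ι) (φ : 𝓢(EuclideanSpace ℝ ι, ℂ)) (j : ℕ) (x : ι → ℝ) : ℂ :=
  Dit c φ j (WithLp.toLp 2 x)

theorem toLp_update (c : ι) (x : ι → ℝ) (s : ℝ) :
    (WithLp.toLp 2 (update x c s) : EuclideanSpace ℝ ι)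
      = WithLp.toLp 2 (update x c 0) + s • EuclideanSpace.single c (1 : ℝ) := by
  ext i
  by_cases h : i = c
  · subst h
    simp
  · simp [h]

theorem Phi_deriv (c : ι) (φ : 𝓢(EuclideanSpace ℝ ι, ℂ)) (x : ι → ℝ) (j : ℕ) (s : ℝ) :
    HasDerivAt (fun s => Phi c φ j (update x c s)) (Phi c φ (j + 1) (update x c s)) s := by
  have h1 : HasDerivAt (fun s : ℝ => (WithLp.toLp 2 (update x c s) : EuclideanSpace ℝ ι))
      (EuclideanSpace.single c (1 : ℝ)) s := by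
    have h2 : (fun s : ℝ => (WithLp.toLp 2 (update x c s) : EuclideanSpace ℝ ι))
        = fun s => WithLp.toLp 2 (update x c 0) + s • EuclideanSpace.single c (1 : ℝ) := by
      funext s
      exact toLp_update c x s
    rw [h2]
    have h3 : HasDerivAt (fun s : ℝ => s • (EuclideanSpace.single c (1 : ℝ) : EuclideanSpace ℝ ι))
        ((1 : ℝ) • EuclideanSpace.single c (1 : ℝ)) s := (hasDerivAt_id s).smul_const _
    rw [one_smul] at h3
    exact h3.const_add _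
  have h4 : HasFDerivAt (Dit c φ j) (fderiv ℝ (Dit c φ j) (WithLp.toLp 2 (update x c s)))
      (WithLp.toLp 2 (update x c s)) := (Dit c φ j).differentiableAt.hasFDerivAt
  have h5 := h4.comp_hasDerivAt s h1
  have h6 : Phi c φ (j + 1) (update x c s)
      = fderiv ℝ (Dit c φ j) (WithLp.toLp 2 (update x c s)) (EuclideanSpace.single c (1 : ℝ)) :=
    SchwartzMap.lineDerivOp_apply_eq_fderiv _ _ _
  rw [h6]
  exact h5

theorem Phi_cont (c : ι) (φ : 𝓢(EuclideanSpace ℝ ι, ℂ)) (j : ℕ) : Continuous (Phi c φ j) := by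
  unfold Phi
  exact (Dit c φ j).continuous.comp (PiLp.continuous_toLp 2 _)

/-- Left end points of the dyadic intervals. -/
def aC (m : ℕ) (s : ℝ) : ℝ := (cel m s : ℝ) / 2 ^ m

theorem aC_meas (m : ℕ) : Measurable (aC m) := by
  unfold aC
  exact ((measurable_of_countable (fun z : ℤ => (z : ℝ))).comp (meas_cel m)).div_const _

/-- The Taylor sum at the left end point. -/
def tau (k m : ℕ) (c : ι) (φ : 𝓢(EuclideanSpace ℝ ι, ℂ)) (y : ι → ℝ) : ℂ :=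
  tay k (fun j => Phi c φ j (update y c (aC m (y c)))) ((y c - aC m (y c) : ℝ) : ℂ)

theorem tau_meas (k m : ℕ) (c : ι) (φ : 𝓢(EuclideanSpace ℝ ι, ℂ)) : Measurable (tau k m c φ) := by
  unfold tau tay
  apply Finset.measurable_fun_sum
  intro j _
  have h1 : Measurable (fun y : ι → ℝ => aC m (y c)) := (aC_meas m).comp (measurable_pi_apply c)
  have h2 : Measurable (fun y : ι → ℝ => update y c (aC m (y c))) :=
    (meas_upd c).comp (f := fun y : ι → ℝ => (y, aC m (y c))) (measurable_id.prodMk h1)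
  have h3 : Measurable (fun y : ι → ℝ => Phi c φ j (update y c (aC m (y c)))) :=
    (Phi_cont c φ j).measurable.comp h2
  have h4 : Measurable (fun y : ι → ℝ => ((y c - aC m (y c) : ℝ) : ℂ)) :=
    Complex.measurable_ofReal.comp ((measurable_pi_apply c).sub h1)
  exact (h3.mul (h4.pow_const j)).div_const _

/-- The remainder. -/
def ff (k m : ℕ) (c : ι) (φ : 𝓢(EuclideanSpace ℝ ι, ℂ)) (y : ι → ℝ) : ℂ :=
  Phi c φ 0 y - tau k m c φ y

theorem ff_meas (k m : ℕ) (c : ι) (φ : 𝓢(EuclideanSpace ℝ ι, ℂ)) : Measurable (ff k m c φ) :=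
  (Phi_cont c φ 0).measurable.sub (tau_meas k m c φ)

theorem avg_eq (m : ℕ) (c : ι) (G : (ι → ℝ) → ℝ≥0∞) (x : ι → ℝ) :
    avg m c G x = ∫⁻ t in Set.Icc (aC m (x c)) (((cel m (x c) : ℝ) + 1) / 2 ^ m),
      (2 : ℝ≥0∞) ^ m * G (update x c t) := by
  unfold avg
  have h1 : ∀ t, kbox m (x c) t * G (update x c t) = Set.indicator
      (Set.Ico (aC m (x c)) (((cel m (x c) : ℝ) + 1) / 2 ^ m))
      (fun t => (2 : ℝ≥0∞) ^ m * G (update x c t)) t := by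
    intro t
    unfold kbox aC
    rw [Set.indicator_apply]
    simp only [cel_eq_iff]
    split_ifs <;> simp
  simp_rw [h1]
  rw [lintegral_indicator measurableSet_Ico, Measure.restrict_congr_set Ico_ae_eq_Icc]

theorem avg_ff (k m : ℕ) (c : ι) (φ : 𝓢(EuclideanSpace ℝ ι, ℂ)) (x : ι → ℝ) :
    avg m c (fun y => ‖ff k m c φ y‖ₑ ^ 2) x ≤
      ENNReal.ofReal ((2 ^ m)⁻¹) ^ (2 * k) * avg m c (fun y => ‖Phi c φ k y‖ₑ ^ 2) x := by
  have hlen : ((cel m (x c) : ℝ) + 1) / 2 ^ m - aC m (x c) = (2 ^ m)⁻¹ := by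
    unfold aC
    rw [← sub_div, add_sub_cancel_left, one_div]
  have hle : aC m (x c) ≤ ((cel m (x c) : ℝ) + 1) / 2 ^ m := by
    have : (0 : ℝ) < (2 ^ m)⁻¹ := by positivity
    linarith
  have h1 := taylor1 k (fun j s => Phi c φ j (update x c s)) (fun j s => Phi_deriv c φ x j s) hle
  rw [hlen] at h1
  rw [avg_eq, avg_eq, lintegral_const_mul', lintegral_const_mul']
  · have h2 : ∫⁻ t in Set.Icc (aC m (x c)) (((cel m (x c) : ℝ) + 1) / 2 ^ m),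
        ‖ff k m c φ (update x c t)‖ₑ ^ 2
        = ∫⁻ t in Set.Icc (aC m (x c)) (((cel m (x c) : ℝ) + 1) / 2 ^ m),
        ‖Phi c φ 0 (update x c t) - tay k (fun j => Phi c φ j (update x c (aC m (x c))))
          ((t - aC m (x c) : ℝ) : ℂ)‖ₑ ^ 2 := by
      rw [← Measure.restrict_congr_set Ico_ae_eq_Icc]
      apply setLIntegral_congr_fun measurableSet_Ico
      intro t ht
      have h3 : cel m (x c) = cel m t := (cel_eq_iff m (x c) t).mpr ht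
      have h4 : aC m t = aC m (x c) := by
        unfold aC
        rw [h3]
      simp only [ff, tau, update_self, update_idem, h4]
    rw [h2]
    calc (2 : ℝ≥0∞) ^ m * _ ≤ (2 : ℝ≥0∞) ^ m * (ENNReal.ofReal ((2 ^ m)⁻¹) ^ (2 * k) *
          ∫⁻ t in Set.Icc (aC m (x c)) (((cel m (x c) : ℝ) + 1) / 2 ^ m),
            ‖Phi c φ k (update x c t)‖ₑ ^ 2) := by
          gcongr
      _ = _ := by ring
  · simp
  · simp

theorem int_ff (k m : ℕ) (c : ι) (φ : 𝓢(EuclideanSpace ℝ ι, ℂ)) :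
    ∫⁻ x, ‖ff k m c φ x‖ₑ ^ 2 ≤
      ENNReal.ofReal ((2 ^ m)⁻¹) ^ (2 * k) * ∫⁻ x, ‖Phi c φ k x‖ₑ ^ 2 := by
  rw [← avg_int m c ((ff_meas k m c φ).enorm.pow_const 2),
    ← avg_int m c ((Phi_cont c φ k).measurable.enorm.pow_const 2), ← lintegral_const_mul']
  · exact lintegral_mono fun x => avg_ff k m c φ x
  · simp

theorem opF_tau {k : ℕ} (hk : 0 < k) (m : ℕ) (c : ι) (φ : 𝓢(EuclideanSpace ℝ ι, ℂ)) (x : ι → ℝ) :
    opF (dker k m) c (tau k m c φ) x = tau k m c φ x := by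
  unfold opF
  have h1 := dker_rep k m (x c) (tayP k (fun j => Phi c φ j (update x c (aC m (x c)))) (aC m (x c)))
    (tayP_deg hk _ _) (fun t => tau k m c φ (update x c t)) (by
      intro t ht
      have h4 : aC m t = aC m (x c) := by
        unfold aC
        rw [ht]
      rw [tayP_eval]
      simp only [tau, update_self, update_idem, h4])
  rw [h1, tayP_eval]
  rfl

theorem toPi_eq (g : Lp ℂ 2 (volume : Measure (EuclideanSpace ℝ ι))) :
    toPi g = Lp.compMeasurePreserving (WithLp.toLp 2) (PiLp.volume_preserving_toLp ι) g := rfl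

theorem toPi_coe' (g : Lp ℂ 2 (volume : Measure (EuclideanSpace ℝ ι))) :
    (toPi g : (ι → ℝ) → ℂ) =ᵐ[volume] fun x => g (WithLp.toLp 2 x) := by
  rw [toPi_eq]
  exact Lp.coeFn_compMeasurePreserving g (PiLp.volume_preserving_toLp ι)

theorem ae_toLp {p : EuclideanSpace ℝ ι → Prop} (h : ∀ᵐ y, p y) :
    ∀ᵐ x : ι → ℝ, p (WithLp.toLp 2 x) :=
  (PiLp.volume_preserving_toLp ι).quasiMeasurePreserving.ae h

theorem toPi_coe (φ : 𝓢(EuclideanSpace ℝ ι, ℂ)) :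
    (toPi (sL φ) : (ι → ℝ) → ℂ) =ᵐ[volume] fun x => φ (WithLp.toLp 2 x) := by
  filter_upwards [toPi_coe' (sL φ), ae_toLp (sL_coe φ)] with x e1 e2
  rw [e1, e2]

theorem toPi_enorm (g : LE ι) : ‖toPi g‖ₑ = ‖g‖ₑ := LinearIsometry.enorm_map _ _

theorem lint_Phi (c : ι) (φ : 𝓢(EuclideanSpace ℝ ι, ℂ)) (j : ℕ) :
    ∫⁻ x, ‖Phi c φ j x‖ₑ ^ 2 = ‖sL (Dit c φ j)‖ₑ ^ 2 := by
  rw [← toPi_enorm, ← lint_sq]
  apply lintegral_congr_ae
  filter_upwards [toPi_coe (Dit c φ j)] with x hx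
  rw [hx]
  rfl

theorem sub_PC_enorm {k : ℕ} (hk : 0 < k) (m : ℕ) (c : ι) (F : HS ι) :
    ‖F - PC k m c F‖ₑ ≤ 2 * ‖F‖ₑ := by
  have h4 : ‖PC k m c F‖ ≤ ‖F‖ :=
    proj_norm_le (PC_adj k m c) (fun φ => PC_comp k hk le_rfl c φ) F
  have h5 : ‖F - PC k m c F‖ ≤ 2 * ‖F‖ := by
    have := norm_sub_le F (PC k m c F)
    linarith
  rw [← ofReal_norm, ← ofReal_norm]
  calc ENNReal.ofReal ‖F - PC k m c F‖ ≤ ENNReal.ofReal (2 * ‖F‖) := ENNReal.ofReal_le_ofReal h5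
    _ = 2 * ENNReal.ofReal ‖F‖ := by
      rw [ENNReal.ofReal_mul (by norm_num), ENNReal.ofReal_ofNat]

theorem approx_core {k : ℕ} (hk : 0 < k) (m : ℕ) (c : ι) (φ : 𝓢(EuclideanSpace ℝ ι, ℂ))
    (ψ : HS ι) (hψ : (ψ : (ι → ℝ) → ℂ) =ᵐ[volume] fun x => φ (WithLp.toLp 2 x))
    (hfin : ∫⁻ x, ‖ff k m c φ x‖ₑ ^ 2 ≠ ⊤) :
    ‖ψ - PC k m c ψ‖ₑ ^ 2 ≤ 4 * ∫⁻ x, ‖ff k m c φ x‖ₑ ^ 2 := by
  have hF := memLp_of_sq (ff_meas k m c φ) hfin
  obtain ⟨F, hFdef⟩ : ∃ F : HS ι, F = hF.toLp (ff k m c φ) := ⟨_, rfl⟩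
  have hFc : (F : (ι → ℝ) → ℂ) =ᵐ[volume] ff k m c φ := by
    rw [hFdef]
    exact hF.coeFn_toLp
  have hT' : ((ψ - F : HS ι) : (ι → ℝ) → ℂ) =ᵐ[volume] tau k m c φ := by
    filter_upwards [Lp.coeFn_sub ψ F, hψ, hFc] with x e0 e1 e2
    rw [e0, Pi.sub_apply, e1, e2]
    unfold ff
    simp [Phi, Dit]
  have hP : PC k m c (ψ - F) = ψ - F := by
    apply Lp.ext
    refine (op_coe (dker_isKer k m) c (ψ - F)).trans ?_
    have h7 : opF (dker k m) c (tau k m c φ) =ᵐ[volume] tau k m c φ :=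
      Filter.Eventually.of_forall (opF_tau hk m c φ)
    exact ((opF_congr c hT').trans h7).trans hT'.symm
  have h2 : ψ - PC k m c ψ = F - PC k m c F := by
    rw [map_sub] at hP
    have : ψ - PC k m c ψ - (F - PC k m c F) = (ψ - F) - (PC k m c ψ - PC k m c F) := by abel
    rw [hP, sub_self] at this
    exact sub_eq_zero.mp this
  have h6 : ‖F‖ₑ ^ 2 = ∫⁻ x, ‖ff k m c φ x‖ₑ ^ 2 := by
    rw [hFdef]
    exact enorm_toLp hF
  rw [h2, ← h6]
  calc ‖F - PC k m c F‖ₑ ^ 2 ≤ (2 * ‖F‖ₑ) ^ 2 := by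
        gcongr
        exact sub_PC_enorm hk m c F
    _ = 4 * ‖F‖ₑ ^ 2 := by
      rw [mul_pow]
      norm_num

theorem approx {k : ℕ} (hk : 0 < k) (m : ℕ) (c : ι) (φ : 𝓢(EuclideanSpace ℝ ι, ℂ)) :
    ‖toPi (sL φ) - PC k m c (toPi (sL φ))‖ₑ ^ 2 ≤
      4 * (ENNReal.ofReal ((2 ^ m)⁻¹) ^ (2 * k) * ‖sL (Dit c φ k)‖ₑ ^ 2) := by
  have h1 := int_ff k m c φ
  rw [lint_Phi] at h1
  have hfin : ∫⁻ x, ‖ff k m c φ x‖ₑ ^ 2 ≠ ⊤ := by
    refine ne_top_of_le_ne_top ?_ h1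
    exact ENNReal.mul_ne_top (ENNReal.pow_ne_top ENNReal.ofReal_ne_top)
      (ENNReal.pow_ne_top enorm_ne_top)
  refine (approx_core hk m c φ (toPi (sL φ)) (toPi_coe φ) hfin).trans ?_
  gcongr

end Pool.Agent.T6.H42F
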