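import Pool.Agent.T6.H42F.Approx

/-!
# Splitting of Schwartz functions in low and high frequencies
-/

set_option autoImplicit false
set_option linter.unusedSectionVars false

noncomputable section

namespace Pool.Agent.T6.H42F

open MeasureTheory Function Filter Pool.Agent.T6.H42 LineDeriv
open scoped ENNReal SchwartzMap FourierTransform

variable {ι : Type} [DecidableEq ι] [Fintype ι]

theorem sL_enorm (φ : 𝓢(EuclideanSpace ℝ ι, ℂ)) : ‖sL φ‖ₑ ^ 2 = ∫⁻ ξ, ‖φ ξ‖ₑ ^ 2 := by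
  have h1 : ‖sL φ‖ₑ = eLpNorm (sL φ) 2 volume := Lp.enorm_def _
  rw [h1, eLpNorm_eq_lintegral_rpow_enorm_toReal (by norm_num) (by norm_num),
    ← ENNReal.rpow_natCast, ← ENNReal.rpow_mul]
  simp only [ENNReal.toReal_ofNat, Nat.cast_ofNat, one_div]
  rw [inv_mul_cancel₀ (by norm_num), ENNReal.rpow_one]
  apply lintegral_congr_ae
  filter_upwards [sL_coe φ] with x hx
  rw [hx]
  norm_num

theorem plancherel (φ : 𝓢(EuclideanSpace ℝ ι, ℂ)) :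
    ‖sL φ‖ₑ ^ 2 = ∫⁻ ξ, ‖(𝓕 φ : 𝓢(EuclideanSpace ℝ ι, ℂ)) ξ‖ₑ ^ 2 := by
  rw [← sL_enorm]
  have h : ‖sL (𝓕 φ : 𝓢(EuclideanSpace ℝ ι, ℂ))‖ = ‖sL φ‖ := SchwartzMap.norm_fourier_toL2_eq φ
  rw [← ofReal_norm, ← ofReal_norm, h]

theorem fourier_Dit (c : ι) (φ : 𝓢(EuclideanSpace ℝ ι, ℂ)) (j : ℕ) (ξ : EuclideanSpace ℝ ι) :
    ‖(𝓕 (Dit c φ j) : 𝓢(EuclideanSpace ℝ ι, ℂ)) ξ‖ₑ
      = ENNReal.ofReal (2 * Real.pi * |ξ c|) ^ j * ‖(𝓕 φ : 𝓢(EuclideanSpace ℝ ι, ℂ)) ξ‖ₑ := by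
  induction j with
  | zero => simp [Dit]
  | succ j ih =>
    have h1 : (𝓕 (Dit c φ (j + 1)) : 𝓢(EuclideanSpace ℝ ι, ℂ)) ξ
        = (2 * Real.pi * Complex.I) • ((inner ℝ ξ (EuclideanSpace.single c (1 : ℝ))) •
          (𝓕 (Dit c φ j) : 𝓢(EuclideanSpace ℝ ι, ℂ)) ξ) := by
      change (𝓕 (∂_{EuclideanSpace.single c (1 : ℝ)} (Dit c φ j)) : 𝓢(EuclideanSpace ℝ ι, ℂ)) ξ = _
      rw [SchwartzMap.fourier_lineDerivOp_eq, smul_apply]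
      congr 1
      have hg : (fun x : EuclideanSpace ℝ ι => inner ℝ x
          (EuclideanSpace.single c (1 : ℝ))).HasTemperateGrowth := by fun_prop
      rw [SchwartzMap.smulLeftCLM_apply_apply hg]
    rw [h1, enorm_smul, enorm_smul, ih, pow_succ]
    have h2 : ‖(2 * (Real.pi : ℂ) * Complex.I)‖ₑ = ENNReal.ofReal (2 * Real.pi) := by
      rw [← ofReal_norm]
      congr 1
      simp [abs_of_pos Real.pi_pos]
    have h3 : ‖inner ℝ ξ (EuclideanSpace.single c (1 : ℝ))‖ₑ = ENNReal.ofReal |ξ c| := by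
      rw [← ofReal_norm, EuclideanSpace.inner_single_right]
      simp
    rw [h2, h3, ENNReal.ofReal_mul (by positivity : (0 : ℝ) ≤ 2 * Real.pi)]
    ring

/-- The cut-off weight. -/
def WW (k : ℕ) (c : ι) (δ : ℝ) (ξ : EuclideanSpace ℝ ι) : ℝ≥0∞ :=
  min 1 (ENNReal.ofReal (2 * Real.pi * (δ * |ξ c|)) ^ (2 * k))

theorem WW_le_one (k : ℕ) (c : ι) (δ : ℝ) (ξ : EuclideanSpace ℝ ι) : WW k c δ ξ ≤ 1 :=
  min_le_left _ _

theorem WW_meas (k : ℕ) (c : ι) (δ : ℝ) : Measurable (WW k c δ) := by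
  unfold WW
  fun_prop

/-- The bump function. -/
def bump : ContDiffBump (0 : ℝ) := ⟨1, 2, by norm_num, by norm_num⟩

/-- The multiplier. -/
def gm (c : ι) (δ : ℝ) (ξ : EuclideanSpace ℝ ι) : ℝ := bump (δ * ξ c)

theorem gm_temp (c : ι) (δ : ℝ) : (gm c δ).HasTemperateGrowth := by
  have h1 : (fun s : ℝ => bump s).HasTemperateGrowth :=
    (bump.hasCompactSupport.toSchwartzMap bump.contDiff).hasTemperateGrowth
  have h2 : (fun ξ : EuclideanSpace ℝ ι => δ * ξ c).HasTemperateGrowth := by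
    have h3 : (fun ξ : EuclideanSpace ℝ ι => δ * ξ c)
        = fun ξ => δ * inner ℝ ξ (EuclideanSpace.single c (1 : ℝ)) := by
      funext ξ
      rw [EuclideanSpace.inner_single_right]
      simp
    rw [h3]
    fun_prop
  exact h1.comp h2

/-- The low frequency part. -/
def low (c : ι) (δ : ℝ) (φ : 𝓢(EuclideanSpace ℝ ι, ℂ)) : 𝓢(EuclideanSpace ℝ ι, ℂ) :=
  𝓕⁻ (SchwartzMap.smulLeftCLM ℂ (gm c δ) (𝓕 φ : 𝓢(EuclideanSpace ℝ ι, ℂ)))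

theorem fourier_low (c : ι) (δ : ℝ) (φ : 𝓢(EuclideanSpace ℝ ι, ℂ)) (ξ : EuclideanSpace ℝ ι) :
    (𝓕 (low c δ φ) : 𝓢(EuclideanSpace ℝ ι, ℂ)) ξ
      = (gm c δ ξ) • (𝓕 φ : 𝓢(EuclideanSpace ℝ ι, ℂ)) ξ := by
  unfold low
  rw [FourierTransform.fourier_fourierInv_eq, SchwartzMap.smulLeftCLM_apply_apply (gm_temp c δ)]

theorem fourier_high (c : ι) (δ : ℝ) (φ : 𝓢(EuclideanSpace ℝ ι, ℂ)) (ξ : EuclideanSpace ℝ ι) :
    (𝓕 (φ - low c δ φ) : 𝓢(EuclideanSpace ℝ ι, ℂ)) ξ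
      = (1 - gm c δ ξ) • (𝓕 φ : 𝓢(EuclideanSpace ℝ ι, ℂ)) ξ := by
  have h1 : (𝓕 (φ - low c δ φ) : 𝓢(EuclideanSpace ℝ ι, ℂ))
      = (𝓕 φ : 𝓢(EuclideanSpace ℝ ι, ℂ)) - (𝓕 (low c δ φ) : 𝓢(EuclideanSpace ℝ ι, ℂ)) :=
    map_sub (SchwartzMap.fourierTransformCLM ℂ (V := EuclideanSpace ℝ ι) (E := ℂ)) _ _
  rw [h1, sub_apply, fourier_low, sub_smul, one_smul]

theorem gm_zero {c : ι} {δ : ℝ} {ξ : EuclideanSpace ℝ ι} (h : 2 ≤ |δ * ξ c|) : gm c δ ξ = 0 := by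
  unfold gm
  apply bump.zero_of_le_dist
  rw [dist_zero_right]
  exact h

theorem gm_one {c : ι} {δ : ℝ} {ξ : EuclideanSpace ℝ ι} (h : |δ * ξ c| ≤ 1) : gm c δ ξ = 1 := by
  unfold gm
  apply bump.one_of_mem_closedBall
  rw [Metric.mem_closedBall, dist_zero_right]
  exact h

theorem gm_abs (c : ι) (δ : ℝ) (ξ : EuclideanSpace ℝ ι) : ‖gm c δ ξ‖ₑ ≤ 1 := by
  rw [← ofReal_norm, ENNReal.ofReal_le_one]
  unfold gm
  rw [Real.norm_of_nonneg bump.nonneg]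
  exact bump.le_one

theorem gm_abs' (c : ι) (δ : ℝ) (ξ : EuclideanSpace ℝ ι) : ‖1 - gm c δ ξ‖ₑ ≤ 1 := by
  rw [← ofReal_norm, ENNReal.ofReal_le_one]
  have h1 : 0 ≤ gm c δ ξ := bump.nonneg
  have h2 : gm c δ ξ ≤ 1 := bump.le_one
  rw [Real.norm_of_nonneg (by linarith)]
  linarith

theorem w_low (k : ℕ) (c : ι) {δ : ℝ} (hδ : 0 ≤ δ) (ξ : EuclideanSpace ℝ ι) :
    (ENNReal.ofReal (2 * Real.pi * (δ * |ξ c|)) ^ k * ‖gm c δ ξ‖ₑ) ^ 2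
      ≤ ENNReal.ofReal (4 * Real.pi) ^ (2 * k) * WW k c δ ξ := by
  have hab : |δ * ξ c| = δ * |ξ c| := by rw [abs_mul, abs_of_nonneg hδ]
  have h1 : (ENNReal.ofReal (2 * Real.pi * (δ * |ξ c|)) ^ k * ‖gm c δ ξ‖ₑ) ^ 2
      = ENNReal.ofReal (2 * Real.pi * (δ * |ξ c|)) ^ (2 * k) * ‖gm c δ ξ‖ₑ ^ 2 := by ring
  rw [h1]
  by_cases h : 2 ≤ |δ * ξ c|
  · rw [gm_zero h]
    simp
  · rw [not_le, hab] at h
    have hpi := Real.pi_pos
    have h3 : (1 : ℝ≥0∞) ≤ ENNReal.ofReal (4 * Real.pi) := by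
      rw [ENNReal.one_le_ofReal]
      have := Real.pi_gt_three
      linarith
    have h4 : ‖gm c δ ξ‖ₑ ^ 2 ≤ 1 := pow_le_one' (gm_abs c δ ξ) 2
    refine (mul_le_of_le_one_right' h4).trans ?_
    unfold WW
    rw [mul_min_of_nonneg _ _ zero_le]
    apply le_min
    · rw [mul_one]
      refine pow_le_pow_left' (ENNReal.ofReal_le_ofReal ?_) _
      nlinarith
    · have h5 : (1 : ℝ≥0∞) ≤ ENNReal.ofReal (4 * Real.pi) ^ (2 * k) := one_le_pow₀ h3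
      calc ENNReal.ofReal (2 * Real.pi * (δ * |ξ c|)) ^ (2 * k)
          = 1 * ENNReal.ofReal (2 * Real.pi * (δ * |ξ c|)) ^ (2 * k) := (one_mul _).symm
        _ ≤ _ := by gcongr

theorem w_high (k : ℕ) (c : ι) {δ : ℝ} (hδ : 0 ≤ δ) (ξ : EuclideanSpace ℝ ι) :
    ‖1 - gm c δ ξ‖ₑ ^ 2 ≤ WW k c δ ξ := by
  have hab : |δ * ξ c| = δ * |ξ c| := by rw [abs_mul, abs_of_nonneg hδ]
  by_cases h : |δ * ξ c| ≤ 1
  · rw [gm_one h]
    simp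
  · rw [not_le, hab] at h
    have h4 : ‖1 - gm c δ ξ‖ₑ ^ 2 ≤ 1 := pow_le_one' (gm_abs' c δ ξ) 2
    unfold WW
    apply le_min h4
    refine h4.trans ?_
    apply one_le_pow₀
    rw [ENNReal.one_le_ofReal]
    have := Real.pi_gt_three
    nlinarith

theorem add_sq_le2 (a b : ℝ≥0∞) : (a + b) ^ 2 ≤ 2 * (a ^ 2 + b ^ 2) := by
  rcases eq_or_ne a ⊤ with rfl | ha
  · simp
  rcases eq_or_ne b ⊤ with rfl | hb
  · simp
  lift a to NNReal using ha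
  lift b to NNReal using hb
  norm_cast
  rw [← NNReal.coe_le_coe]
  push_cast
  nlinarith [sq_nonneg ((a : ℝ) - b)]

/-- The main estimate for Schwartz functions. -/
theorem schwartz_bound {k : ℕ} (hk : 0 < k) (m : ℕ) (c : ι) (φ : 𝓢(EuclideanSpace ℝ ι, ℂ)) :
    ‖toPi (sL φ) - PC k m c (toPi (sL φ))‖ₑ ^ 2 ≤
      (16 * ENNReal.ofReal (4 * Real.pi) ^ (2 * k)) *
        ∫⁻ ξ, WW k c ((2 ^ m)⁻¹) ξ * ‖(𝓕 φ : 𝓢(EuclideanSpace ℝ ι, ℂ)) ξ‖ₑ ^ 2 := by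
  set δ : ℝ := (2 ^ m)⁻¹ with hδdef
  have hδ : 0 ≤ δ := by positivity
  set J := ∫⁻ ξ, WW k c δ ξ * ‖(𝓕 φ : 𝓢(EuclideanSpace ℝ ι, ℂ)) ξ‖ₑ ^ 2 with hJ
  have hC : (1 : ℝ≥0∞) ≤ ENNReal.ofReal (4 * Real.pi) ^ (2 * k) := by
    apply one_le_pow₀
    rw [ENNReal.one_le_ofReal]
    have := Real.pi_gt_three
    linarith
  -- low part
  have h1 : ‖toPi (sL (low c δ φ)) - PC k m c (toPi (sL (low c δ φ)))‖ₑ ^ 2
      ≤ 4 * (ENNReal.ofReal (4 * Real.pi) ^ (2 * k) * J) := by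
    refine (approx hk m c (low c δ φ)).trans (mul_le_mul' le_rfl ?_)
    rw [plancherel, ← lintegral_const_mul', hJ, ← lintegral_const_mul']
    · apply lintegral_mono
      intro ξ
      simp only
      rw [fourier_Dit, fourier_low, enorm_smul, ← hδdef]
      calc ENNReal.ofReal δ ^ (2 * k) * (ENNReal.ofReal (2 * Real.pi * |ξ c|) ^ k *
            (‖gm c δ ξ‖ₑ * ‖(𝓕 φ : 𝓢(EuclideanSpace ℝ ι, ℂ)) ξ‖ₑ)) ^ 2
          = ((ENNReal.ofReal δ * ENNReal.ofReal (2 * Real.pi * |ξ c|)) ^ k * ‖gm c δ ξ‖ₑ) ^ 2 *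
            ‖(𝓕 φ : 𝓢(EuclideanSpace ℝ ι, ℂ)) ξ‖ₑ ^ 2 := by ring
        _ = (ENNReal.ofReal (2 * Real.pi * (δ * |ξ c|)) ^ k * ‖gm c δ ξ‖ₑ) ^ 2 *
            ‖(𝓕 φ : 𝓢(EuclideanSpace ℝ ι, ℂ)) ξ‖ₑ ^ 2 := by
            rw [← ENNReal.ofReal_mul hδ]
            congr 5
            ring
        _ ≤ (ENNReal.ofReal (4 * Real.pi) ^ (2 * k) * WW k c δ ξ) *
            ‖(𝓕 φ : 𝓢(EuclideanSpace ℝ ι, ℂ)) ξ‖ₑ ^ 2 := by
            gcongr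
            exact w_low k c hδ ξ
        _ = _ := by ring
    · exact ENNReal.pow_ne_top ENNReal.ofReal_ne_top
    · exact ENNReal.pow_ne_top ENNReal.ofReal_ne_top
  -- high part
  have h2 : ‖toPi (sL (φ - low c δ φ)) - PC k m c (toPi (sL (φ - low c δ φ)))‖ₑ ^ 2 ≤ 4 * J := by
    calc ‖toPi (sL (φ - low c δ φ)) - PC k m c (toPi (sL (φ - low c δ φ)))‖ₑ ^ 2
        ≤ (2 * ‖toPi (sL (φ - low c δ φ))‖ₑ) ^ 2 := by
          gcongr
          exact sub_PC_enorm hk m c _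
      _ = 4 * ‖sL (φ - low c δ φ)‖ₑ ^ 2 := by
          rw [toPi_enorm, mul_pow]
          norm_num
      _ ≤ 4 * J := by
          gcongr
          rw [plancherel, hJ]
          apply lintegral_mono
          intro ξ
          simp only
          rw [fourier_high, enorm_smul, mul_pow]
          gcongr
          exact w_high k c hδ ξ
  -- sum
  have h3 : sL φ = sL (low c δ φ) + sL (φ - low c δ φ) := by
    have : sL (low c δ φ) + sL (φ - low c δ φ) = sL (low c δ φ + (φ - low c δ φ)) := rfl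
    rw [this]
    congr 1
    abel
  have h4 : toPi (sL φ) - PC k m c (toPi (sL φ))
      = (toPi (sL (low c δ φ)) - PC k m c (toPi (sL (low c δ φ))))
        + (toPi (sL (φ - low c δ φ)) - PC k m c (toPi (sL (φ - low c δ φ)))) := by
    rw [h3, map_add, map_add]
    abel
  rw [h4]
  calc _ ≤ (‖toPi (sL (low c δ φ)) - PC k m c (toPi (sL (low c δ φ)))‖ₑ
        + ‖toPi (sL (φ - low c δ φ)) - PC k m c (toPi (sL (φ - low c δ φ)))‖ₑ) ^ 2 := by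
        gcongr
        exact enorm_add_le _ _
    _ ≤ 2 * (‖toPi (sL (low c δ φ)) - PC k m c (toPi (sL (low c δ φ)))‖ₑ ^ 2
        + ‖toPi (sL (φ - low c δ φ)) - PC k m c (toPi (sL (φ - low c δ φ)))‖ₑ ^ 2) := add_sq_le2 _ _
    _ ≤ 2 * (4 * (ENNReal.ofReal (4 * Real.pi) ^ (2 * k) * J) +
        4 * (ENNReal.ofReal (4 * Real.pi) ^ (2 * k) * J)) := by
        apply mul_le_mul' le_rfl
        apply add_le_add h1
        refine h2.trans (mul_le_mul' le_rfl ?_)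
        exact le_mul_of_one_le_left' hC
    _ = _ := by ring

end Pool.Agent.T6.H42F
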