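import Pool.Agent.T6.H42.Proj

/-!
# Taylor approximation in `L²` of an interval
-/

set_option autoImplicit false
set_option linter.unusedSectionVars false

noncomputable section

namespace Pool.Agent.T6.H42F

open MeasureTheory Function Filter Pool.Agent.T6.H42
open scoped ENNReal Polynomial

/-- Taylor sum. -/
def tay (k : ℕ) (h : ℕ → ℂ) (u : ℂ) : ℂ := ∑ j ∈ Finset.range k, h j * u ^ j / (j.factorial : ℂ)

theorem tay_succ (k : ℕ) (h : ℕ → ℂ) (u : ℂ) :
    tay (k + 1) h u = h 0 + ∑ j ∈ Finset.range k, h (j + 1) * u ^ (j + 1) / ((j + 1).factorial : ℂ) := by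
  unfold tay
  rw [Finset.sum_range_succ']
  simp
  ring

theorem tay_deriv (k : ℕ) (h : ℕ → ℂ) (a s : ℝ) :
    HasDerivAt (fun s : ℝ => tay (k + 1) h ((s - a : ℝ) : ℂ))
      (tay k (fun j => h (j + 1)) ((s - a : ℝ) : ℂ)) s := by
  have h0 : (fun s : ℝ => tay (k + 1) h ((s - a : ℝ) : ℂ)) = fun s : ℝ => h 0 +
      ∑ j ∈ Finset.range k, h (j + 1) * ((s - a : ℝ) : ℂ) ^ (j + 1) / ((j + 1).factorial : ℂ) := by
    funext s
    exact tay_succ k h _
  rw [h0]
  have h1 : HasDerivAt (fun s : ℝ => ((s - a : ℝ) : ℂ)) 1 s := by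
    have h2 : HasDerivAt (fun s : ℝ => s - a) 1 s := (hasDerivAt_id s).sub_const a
    exact_mod_cast h2.ofReal_comp
  have h2 : HasDerivAt (fun s : ℝ => ∑ j ∈ Finset.range k, h (j + 1) * ((s - a : ℝ) : ℂ) ^ (j + 1)
      / ((j + 1).factorial : ℂ)) (∑ j ∈ Finset.range k, h (j + 1) *
        (((j + 1 : ℕ) : ℂ) * ((s - a : ℝ) : ℂ) ^ j * 1) / ((j + 1).factorial : ℂ)) s := by
    apply HasDerivAt.fun_sum
    intro j _
    exact ((h1.pow (j + 1)).const_mul (h (j + 1))).div_const _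
  have h3 : tay k (fun j => h (j + 1)) ((s - a : ℝ) : ℂ) = ∑ j ∈ Finset.range k, h (j + 1) *
        (((j + 1 : ℕ) : ℂ) * ((s - a : ℝ) : ℂ) ^ j * 1) / ((j + 1).factorial : ℂ) := by
    unfold tay
    apply Finset.sum_congr rfl
    intro j _
    rw [Nat.factorial_succ]
    have e1 : ((j.factorial : ℕ) : ℂ) ≠ 0 := by exact_mod_cast j.factorial_ne_zero
    have e2 : ((j + 1 : ℕ) : ℂ) ≠ 0 := by exact_mod_cast j.succ_ne_zero
    rw [Nat.cast_mul]
    field_simp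
  rw [h3]
  exact h2.const_add (h 0)

theorem tay_zero_arg (k : ℕ) (h : ℕ → ℂ) : tay (k + 1) h 0 = h 0 := by
  rw [tay_succ]
  simp

theorem tay_cont (k : ℕ) (h : ℕ → ℂ) : Continuous (tay k h) := by
  unfold tay
  fun_prop

/-- One step: a function vanishing at the left end point is controlled by its derivative. -/
theorem step1 {g g1 : ℝ → ℂ} (hd : ∀ s, HasDerivAt g (g1 s) s) (hg1 : Continuous g1) {a b : ℝ}
    (ha : g a = 0) :
    ∫⁻ s in Set.Icc a b, ‖g s‖ₑ ^ 2 ≤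
      ENNReal.ofReal (b - a) ^ 2 * ∫⁻ s in Set.Icc a b, ‖g1 s‖ₑ ^ 2 := by
  have hpt : ∀ s ∈ Set.Icc a b, ‖g s‖ₑ ^ 2 ≤ ENNReal.ofReal (b - a) *
      ∫⁻ s in Set.Icc a b, ‖g1 s‖ₑ ^ 2 := by
    intro s hs
    have h1 : g s = ∫ t in a..s, g1 t := by
      rw [intervalIntegral.integral_eq_sub_of_hasDerivAt (fun t _ => hd t)
        (hg1.intervalIntegrable _ _), ha, sub_zero]
    have h2 : ‖g s‖ₑ ≤ ∫⁻ t in Set.Icc a b, ‖g1 t‖ₑ := by
      rw [h1, intervalIntegral.integral_of_le hs.1]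
      refine (enorm_integral_le_lintegral_enorm _).trans ?_
      apply lintegral_mono_set
      intro t ht
      exact ⟨ht.1.le, ht.2.trans hs.2⟩
    have h3 := cs_w (volume.restrict (Set.Icc a b)) (fun _ => 1) (fun t => ‖g1 t‖ₑ)
      measurable_const hg1.measurable.enorm
    simp only [one_mul] at h3
    calc ‖g s‖ₑ ^ 2 ≤ (∫⁻ t in Set.Icc a b, ‖g1 t‖ₑ) ^ 2 := by gcongr
      _ ≤ _ := h3
      _ = _ := by
        rw [lintegral_const, Measure.restrict_apply_univ, Real.volume_Icc, one_mul]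
  calc ∫⁻ s in Set.Icc a b, ‖g s‖ₑ ^ 2
      ≤ ∫⁻ _ in Set.Icc a b, ENNReal.ofReal (b - a) * ∫⁻ s in Set.Icc a b, ‖g1 s‖ₑ ^ 2 :=
        setLIntegral_mono' measurableSet_Icc hpt
    _ = _ := by
      rw [lintegral_const, Measure.restrict_apply_univ, Real.volume_Icc]
      ring

theorem taylor1 (k : ℕ) : ∀ (H : ℕ → ℝ → ℂ), (∀ j s, HasDerivAt (H j) (H (j + 1) s) s) →
    ∀ {a b : ℝ}, a ≤ b →
    ∫⁻ s in Set.Icc a b, ‖H 0 s - tay k (fun j => H j a) ((s - a : ℝ) : ℂ)‖ₑ ^ 2 ≤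
      ENNReal.ofReal (b - a) ^ (2 * k) * ∫⁻ s in Set.Icc a b, ‖H k s‖ₑ ^ 2 := by
  induction k with
  | zero =>
    intro H hd a b hab
    simp [tay]
  | succ k ih =>
    intro H hd a b hab
    have h1 := ih (fun j => H (j + 1)) (fun j s => hd (j + 1) s) hab
    have hc : ∀ j, Continuous (H j) := fun j =>
      continuous_iff_continuousAt.mpr fun s => (hd j s).continuousAt
    have h2 := step1 (g := fun s => H 0 s - tay (k + 1) (fun j => H j a) ((s - a : ℝ) : ℂ))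
      (g1 := fun s => H 1 s - tay k (fun j => H (j + 1) a) ((s - a : ℝ) : ℂ))
      (fun s => (hd 0 s).sub (tay_deriv k (fun j => H j a) a s))
      ((hc 1).sub ((tay_cont k _).comp (by fun_prop : Continuous fun s : ℝ => ((s - a : ℝ) : ℂ))))
      (a := a) (b := b) (by
        simp only [sub_self, Complex.ofReal_zero]
        rw [tay_zero_arg, sub_self])
    refine h2.trans ?_
    calc ENNReal.ofReal (b - a) ^ 2 * ∫⁻ s in Set.Icc a b,
          ‖H 1 s - tay k (fun j => H (j + 1) a) ((s - a : ℝ) : ℂ)‖ₑ ^ 2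
        ≤ ENNReal.ofReal (b - a) ^ 2 * (ENNReal.ofReal (b - a) ^ (2 * k) *
          ∫⁻ s in Set.Icc a b, ‖H (k + 1) s‖ₑ ^ 2) := by
          gcongr
      _ = _ := by ring

/-- The Taylor polynomial. -/
def tayP (k : ℕ) (h : ℕ → ℂ) (a : ℝ) : ℂ[X] :=
  ∑ j ∈ Finset.range k, Polynomial.C (h j / (j.factorial : ℂ)) *
    (Polynomial.X - Polynomial.C (a : ℂ)) ^ j

theorem tayP_eval (k : ℕ) (h : ℕ → ℂ) (a s : ℝ) :
    (tayP k h a).eval (s : ℂ) = tay k h ((s - a : ℝ) : ℂ) := by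
  unfold tayP tay
  rw [Polynomial.eval_finsetSum]
  apply Finset.sum_congr rfl
  intro j _
  simp
  ring

theorem tayP_deg {k : ℕ} (hk : 0 < k) (h : ℕ → ℂ) (a : ℝ) : (tayP k h a).natDegree < k := by
  unfold tayP
  refine lt_of_le_of_lt (Polynomial.natDegree_sum_le_of_forall_le (n := k - 1) _ _ ?_) (by omega)
  intro j hj
  rw [Finset.mem_range] at hj
  refine (Polynomial.natDegree_C_mul_le _ _).trans ?_
  refine (Polynomial.natDegree_pow_le_of_le j (Polynomial.natDegree_X_sub_C_le _)).trans ?_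
  omega

end Pool.Agent.T6.H42F
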